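import Pool.Agent.W5h55.BT.Laplace

set_option autoImplicit false
set_option linter.unusedSectionVars false

/-!
# Bochner's tube theorem for functions of polynomial growth

A function `F` which is holomorphic on the tube over a connected open set `W` of real vectors, and
of polynomial growth over compact subsets of `W`, extends to the tube over the convex hull of `W`,
and the extension has polynomial growth over compact subsets of the convex hull.
-/

namespace Pool.Agent.W5h55.BT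

open MeasureTheory Filter Topology Metric Complex

open scoped FourierTransform RealInnerProductSpace

variable {ι : Type*} [Fintype ι]

theorem dotr_add (x y : ι → ℝ) (ξ : EuclideanSpace ℝ ι) :
    dotr (x + y) ξ = dotr x ξ + dotr y ξ := by
  simp [dotr, add_mul, Finset.sum_add_distrib]

theorem dotr_smul (a : ℝ) (x : ι → ℝ) (ξ : EuclideanSpace ℝ ι) :
    dotr (a • x) ξ = a * dotr x ξ := by
  simp [dotr, Finset.mul_sum, mul_assoc]

theorem norm_le_L1 (ξ : EuclideanSpace ℝ ι) : ‖ξ‖ ≤ ∑ j, |ξ j| := by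
  have h0 : 0 ≤ ∑ j, |ξ j| := Finset.sum_nonneg fun j _ => abs_nonneg _
  refine le_of_sq_le_sq ?_ h0
  rw [EuclideanSpace.real_norm_sq_eq]
  calc ∑ j, ξ j ^ 2 = ∑ j, |ξ j| ^ 2 := by simp
    _ ≤ (∑ j, |ξ j|) ^ 2 := Finset.sum_sq_le_sq_sum_of_nonneg fun j _ => abs_nonneg _

/-- Exponential decay is integrable. -/
theorem integrable_expL1 {a : ℝ} (ha : 0 < a) :
    Integrable fun ξ : EuclideanSpace ℝ ι => Real.exp (-(a * ∑ j, |ξ j|)) := by
  set n : ℕ := Module.finrank ℝ (EuclideanSpace ℝ ι) + 1 with hn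
  have h1 : Integrable fun ξ : EuclideanSpace ℝ ι => (1 + ‖ξ‖) ^ (-(n : ℝ)) :=
    integrable_one_add_norm (by rw [hn]; push_cast; linarith)
  refine Integrable.mono' (h1.const_mul ((n.factorial : ℝ) * Real.exp a / a ^ n)) ?_
    (Eventually.of_forall fun ξ => ?_)
  · refine Continuous.aestronglyMeasurable ?_
    refine Real.continuous_exp.comp (Continuous.neg (continuous_const.mul ?_))
    exact continuous_finsetSum _ fun j _ => (by fun_prop)
  · have h0 : 0 ≤ ‖ξ‖ := norm_nonneg ξ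
    rw [Real.norm_of_nonneg (Real.exp_pos _).le]
    have h2 := Real.pow_div_factorial_le_exp (a * (1 + ‖ξ‖)) (by positivity) n
    have h3 : Real.exp (-(a * ∑ j, |ξ j|)) ≤ Real.exp a * Real.exp (-(a * (1 + ‖ξ‖))) := by
      rw [← Real.exp_add]
      refine Real.exp_le_exp.2 ?_
      have := mul_le_mul_of_nonneg_left (norm_le_L1 ξ) ha.le
      linarith
    have h4 : Real.exp (-(a * (1 + ‖ξ‖))) ≤ (n.factorial : ℝ) / a ^ n * (1 + ‖ξ‖) ^ (-(n : ℝ)) := by
      rw [Real.exp_neg, Real.rpow_neg (by positivity), Real.rpow_natCast]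
      rw [mul_pow, div_le_iff₀ (by positivity)] at h2
      rw [inv_le_comm₀ (Real.exp_pos _) (by positivity)]
      rw [mul_inv, inv_inv, inv_div, div_mul_eq_mul_div, div_le_iff₀ (by positivity)]
      exact h2
    calc Real.exp (-(a * ∑ j, |ξ j|)) ≤ Real.exp a * Real.exp (-(a * (1 + ‖ξ‖))) := h3
      _ ≤ Real.exp a * ((n.factorial : ℝ) / a ^ n * (1 + ‖ξ‖) ^ (-(n : ℝ))) := by gcongr
      _ = (n.factorial : ℝ) * Real.exp a / a ^ n * (1 + ‖ξ‖) ^ (-(n : ℝ)) := by ring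

/-- The vectors with a polynomial bound. -/
def Good (g : EuclideanSpace ℝ ι → EuclideanSpace ℝ ι → ℂ) : Set (ι → ℝ) :=
  {x | ∃ (C : ℝ) (N : ℕ), 0 ≤ C ∧ ∀ h ξ : EuclideanSpace ℝ ι,
    ‖g h ξ‖ * Real.exp (2 * Real.pi * dotr x ξ) ≤ C * (1 + ‖h‖) ^ N}

theorem one_le_one_add (h : EuclideanSpace ℝ ι) : 1 ≤ 1 + ‖h‖ := by
  have := norm_nonneg h
  linarith

theorem convex_Good (g : EuclideanSpace ℝ ι → EuclideanSpace ℝ ι → ℂ) : Convex ℝ (Good g) := by
  rintro x ⟨C1, N1, hC1, h1⟩ y ⟨C2, N2, hC2, h2⟩ a b ha hb hab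
  refine ⟨C1 + C2, max N1 N2, by positivity, fun h ξ => ?_⟩
  have h3 : Real.exp (2 * Real.pi * dotr (a • x + b • y) ξ) ≤
      a * Real.exp (2 * Real.pi * dotr x ξ) + b * Real.exp (2 * Real.pi * dotr y ξ) := by
    have h4 := convexOn_exp.2 (Set.mem_univ (2 * Real.pi * dotr x ξ))
      (Set.mem_univ (2 * Real.pi * dotr y ξ)) ha hb hab
    simp only [smul_eq_mul] at h4
    refine le_trans (le_of_eq ?_) h4
    rw [dotr_add, dotr_smul, dotr_smul]
    ring_nf
  have ha1 : a ≤ 1 := by linarith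
  have hb1 : b ≤ 1 := by linarith
  have h5 : C1 * (1 + ‖h‖) ^ N1 ≤ C1 * (1 + ‖h‖) ^ max N1 N2 := by
    gcongr
    · exact one_le_one_add h
    · exact le_max_left _ _
  have h6 : C2 * (1 + ‖h‖) ^ N2 ≤ C2 * (1 + ‖h‖) ^ max N1 N2 := by
    gcongr
    · exact one_le_one_add h
    · exact le_max_right _ _
  have h7 : 0 ≤ C1 * (1 + ‖h‖) ^ max N1 N2 := by positivity
  have h8 : 0 ≤ C2 * (1 + ‖h‖) ^ max N1 N2 := by positivity
  calc ‖g h ξ‖ * Real.exp (2 * Real.pi * dotr (a • x + b • y) ξ)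
      ≤ ‖g h ξ‖ * (a * Real.exp (2 * Real.pi * dotr x ξ) +
          b * Real.exp (2 * Real.pi * dotr y ξ)) := by gcongr
    _ = a * (‖g h ξ‖ * Real.exp (2 * Real.pi * dotr x ξ)) +
          b * (‖g h ξ‖ * Real.exp (2 * Real.pi * dotr y ξ)) := by ring
    _ ≤ a * (C1 * (1 + ‖h‖) ^ max N1 N2) + b * (C2 * (1 + ‖h‖) ^ max N1 N2) :=
        add_le_add (mul_le_mul_of_nonneg_left ((h1 h ξ).trans h5) ha)
          (mul_le_mul_of_nonneg_left ((h2 h ξ).trans h6) hb)
    _ ≤ 1 * (C1 * (1 + ‖h‖) ^ max N1 N2) + 1 * (C2 * (1 + ‖h‖) ^ max N1 N2) :=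
        add_le_add (mul_le_mul_of_nonneg_right ha1 h7) (mul_le_mul_of_nonneg_right hb1 h8)
    _ = (C1 + C2) * (1 + ‖h‖) ^ max N1 N2 := by ring

/-- Near an interior point the bound improves to exponential decay. -/
theorem exists_decay {g : EuclideanSpace ℝ ι → EuclideanSpace ℝ ι → ℂ} {H : Set (ι → ℝ)}
    (hH : IsOpen H) (hg : H ⊆ Good g) {x0 : ι → ℝ} (hx0 : x0 ∈ H) :
    ∃ (δ C : ℝ) (N : ℕ), 0 < δ ∧ 0 ≤ C ∧ closedBall x0 δ ⊆ H ∧
      ∀ h ξ : EuclideanSpace ℝ ι, ∀ x ∈ closedBall x0 δ,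
        ‖g h ξ‖ * Real.exp (2 * Real.pi * dotr x ξ) ≤
          C * (1 + ‖h‖) ^ N * Real.exp (-(2 * Real.pi * δ * ∑ j, |ξ j|)) := by
  classical
  obtain ⟨ε, hε, hεH⟩ := Metric.isOpen_iff.1 hH _ hx0
  set δ : ℝ := ε / 3 with hδ
  have hδ0 : 0 < δ := by positivity
  set pt : (ι → Bool) → (ι → ℝ) := fun s j => x0 j + (if s j then 2 * δ else -(2 * δ)) with hpt
  have hmem : ∀ s, pt s ∈ H := by
    intro s
    refine hεH ?_
    rw [mem_ball, dist_eq_norm]
    refine lt_of_le_of_lt ((pi_norm_le_iff_of_nonneg (show (0 : ℝ) ≤ 2 * δ by positivity)).2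
      fun j => ?_) (show 2 * δ < ε by rw [hδ]; linarith)
    simp only [hpt, Pi.sub_apply, add_sub_cancel_left, Real.norm_eq_abs]
    split_ifs
    · rw [abs_of_nonneg (by positivity)]
    · rw [abs_neg, abs_of_nonneg (by positivity)]
  choose C N hC hCN using fun s => hg (hmem s)
  refine ⟨δ, ∑ s, C s, ∑ s, N s, hδ0, Finset.sum_nonneg fun s _ => hC s,
    (closedBall_subset_ball (by rw [hδ]; linarith)).trans hεH, fun h ξ x hx => ?_⟩
  set s : ι → Bool := fun j => decide (0 ≤ ξ j) with hs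
  have h1 : dotr (pt s) ξ = dotr x0 ξ + 2 * δ * ∑ j, |ξ j| := by
    simp only [dotr, hpt, hs, decide_eq_true_eq, add_mul, Finset.sum_add_distrib, Finset.mul_sum]
    congr 1
    refine Finset.sum_congr rfl fun j _ => ?_
    split_ifs with h0
    · rw [abs_of_nonneg h0]
    · rw [abs_of_neg (not_le.1 h0)]
      ring
  have h2 : dotr x ξ ≤ dotr x0 ξ + δ * ∑ j, |ξ j| := by
    have h3 : dotr x ξ = dotr x0 ξ + dotr (x - x0) ξ := by
      rw [← dotr_add]
      simp
    rw [h3]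
    have h4 := (le_abs_self _).trans (dotr_le (x - x0) ξ)
    have h5 : ‖x - x0‖ ≤ δ := by rwa [mem_closedBall, dist_eq_norm] at hx
    have h6 : 0 ≤ ∑ j, |ξ j| := Finset.sum_nonneg fun j _ => abs_nonneg _
    have h7 := mul_le_mul_of_nonneg_right h5 h6
    linarith
  have h3 : Real.exp (2 * Real.pi * dotr x ξ) ≤ Real.exp (2 * Real.pi * dotr (pt s) ξ) *
      Real.exp (-(2 * Real.pi * δ * ∑ j, |ξ j|)) := by
    rw [← Real.exp_add]
    refine Real.exp_le_exp.2 ?_
    have h8 : 2 * Real.pi * dotr x ξ ≤ 2 * Real.pi * (dotr x0 ξ + δ * ∑ j, |ξ j|) := by gcongr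
    rw [h1]
    linarith
  have h4 : C s ≤ ∑ s, C s := Finset.single_le_sum (fun s _ => hC s) (Finset.mem_univ s)
  have h5 : N s ≤ ∑ s, N s := Finset.single_le_sum (fun s _ => Nat.zero_le _) (Finset.mem_univ s)
  calc ‖g h ξ‖ * Real.exp (2 * Real.pi * dotr x ξ)
      ≤ ‖g h ξ‖ * (Real.exp (2 * Real.pi * dotr (pt s) ξ) *
          Real.exp (-(2 * Real.pi * δ * ∑ j, |ξ j|))) := by gcongr
    _ = (‖g h ξ‖ * Real.exp (2 * Real.pi * dotr (pt s) ξ)) *
          Real.exp (-(2 * Real.pi * δ * ∑ j, |ξ j|)) := by ring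
    _ ≤ (C s * (1 + ‖h‖) ^ N s) * Real.exp (-(2 * Real.pi * δ * ∑ j, |ξ j|)) :=
        mul_le_mul_of_nonneg_right (hCN s h ξ) (Real.exp_pos _).le
    _ ≤ ((∑ s, C s) * (1 + ‖h‖) ^ (∑ s, N s)) * Real.exp (-(2 * Real.pi * δ * ∑ j, |ξ j|)) := by
        have h0 : 0 ≤ ∑ s, C s := Finset.sum_nonneg fun s _ => hC s
        gcongr
        exact one_le_one_add h

/-- The extension, with centre `h`. -/
noncomputable def Ext (g : EuclideanSpace ℝ ι → EuclideanSpace ℝ ι → ℂ)
    (h : EuclideanSpace ℝ ι) (z : ι → ℂ) : ℂ :=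
  cexp (-(q h z)) * ∫ ξ : EuclideanSpace ℝ ι, g h ξ * cexp (2 * Real.pi * dotc z ξ)

theorem norm_kernel (g : EuclideanSpace ℝ ι → EuclideanSpace ℝ ι → ℂ)
    (h ξ : EuclideanSpace ℝ ι) (z : ι → ℂ) :
    ‖g h ξ * cexp (2 * Real.pi * dotc z ξ)‖ =
      ‖g h ξ‖ * Real.exp (2 * Real.pi * dotr (re' z) ξ) := by
  rw [norm_mul, Complex.norm_exp]
  congr 2
  have : (2 * (Real.pi : ℂ) * dotc z ξ) = ((2 * Real.pi : ℝ) : ℂ) * dotc z ξ := by push_cast; ring
  rw [this, Complex.re_ofReal_mul, re_dotc]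

theorem differentiableAt_Ext {g : EuclideanSpace ℝ ι → EuclideanSpace ℝ ι → ℂ}
    {H : Set (ι → ℝ)} (hH : IsOpen H) (hg : H ⊆ Good g) (hgc : ∀ h, Continuous (g h))
    (h : EuclideanSpace ℝ ι) {z0 : ι → ℂ} (hz0 : z0 ∈ Tube H) :
    DifferentiableAt ℂ (Ext g h) z0 := by
  obtain ⟨δ, C, N, hδ, hC, hsub, hle⟩ := exists_decay hH hg hz0
  unfold Ext
  refine ((differentiable_q h).neg.cexp z0).mul ?_
  refine differentiableAt_integral (φ := fun z ξ => g h ξ * cexp (2 * Real.pi * dotc z ξ))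
    (r := δ / 2) (by positivity) (fun ξ => ?_) (fun z _ => ?_)
    (B := fun ξ => C * (1 + ‖h‖) ^ N * Real.exp (-(2 * Real.pi * δ * ∑ j, |ξ j|))) ?_ ?_
  · exact (((differentiable_dotc ξ).const_mul _).cexp.const_mul _).differentiableOn
  · refine Continuous.aestronglyMeasurable ((hgc h).mul (Complex.continuous_exp.comp
      (continuous_const.mul ?_)))
    exact continuous_dotc.comp (by fun_prop : Continuous fun ξ : EuclideanSpace ℝ ι => (z, ξ))
  · exact (integrable_expL1 (show 0 < 2 * Real.pi * δ by positivity)).const_mul _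
  · intro ξ z hz
    rw [norm_kernel]
    refine hle h ξ (re' z) ?_
    rw [mem_closedBall, dist_eq_norm]
    rw [mem_ball, dist_eq_norm] at hz
    have h1 := norm_re'_sub_le z z0
    have h2 : ‖re' z - re' z0‖ ≤ δ := by linarith
    exact h2

/-- Two holomorphic functions on the tube over a convex open set which agree on the tube over a
nonempty open subset are equal. -/
theorem eqOn_of_eqOn {H W : Set (ι → ℝ)} (hH : IsOpen H) (hHc : Convex ℝ H) (hW : IsOpen W)
    (hWH : W ⊆ H) {w0 : ι → ℝ} (hw0 : w0 ∈ W) {G1 G2 : (ι → ℂ) → ℂ}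
    (h1 : ∀ z ∈ Tube H, DifferentiableAt ℂ G1 z) (h2 : ∀ z ∈ Tube H, DifferentiableAt ℂ G2 z)
    (h12 : ∀ z ∈ Tube W, G1 z = G2 z) : ∀ z ∈ Tube H, G1 z = G2 z := by
  intro z hz
  set w : ι → ℂ := R w0 with hw
  have hwW : w ∈ Tube W := by
    rw [mem_Tube, hw, re'_R]
    exact hw0
  set L : ℂ → (ι → ℂ) := fun t => w + t • (z - w) with hL
  have hLc : Continuous L := by fun_prop
  set S : Set ℂ := L ⁻¹' (Tube H) with hS
  have hSo : IsOpen S := (isOpen_Tube hH).preimage hLc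
  have hSc : IsPreconnected S := by
    refine Convex.isPreconnected ?_
    rintro s hs t ht a b ha hb hab
    have e1 : re' (L (a • s + b • t)) = a • re' (L s) + b • re' (L t) := by
      funext j
      simp only [hL, re', Pi.add_apply, Pi.smul_apply, smul_eq_mul, Complex.add_re,
        Complex.mul_re, Complex.real_smul, Complex.ofReal_re, Complex.ofReal_im, Complex.add_im,
        Complex.mul_im, Pi.sub_apply]
      have : a = 1 - b := by linarith
      subst this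
      ring
    have e2 : re' (L (a • s + b • t)) ∈ H := by
      rw [e1]
      exact hHc hs ht ha hb hab
    exact e2
  have hdiff : ∀ G : (ι → ℂ) → ℂ, (∀ z ∈ Tube H, DifferentiableAt ℂ G z) →
      AnalyticOnNhd ℂ (fun t => G (L t)) S := by
    intro G hG
    refine DifferentiableOn.analyticOnNhd (fun t ht => ?_) hSo
    refine DifferentiableAt.differentiableWithinAt ?_
    refine DifferentiableAt.comp t (hG _ ht) ?_
    fun_prop
  have h0 : (0 : ℂ) ∈ S := by
    have : L 0 = w := by simp [hL]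
    rw [hS, Set.mem_preimage, this]
    exact hWH hwW
  have h1S : (1 : ℂ) ∈ S := by
    have : L 1 = z := by simp [hL]
    rw [hS, Set.mem_preimage, this]
    exact hz
  have hev : (fun t => G1 (L t)) =ᶠ[𝓝 0] fun t => G2 (L t) := by
    have h3 : L ⁻¹' (Tube W) ∈ 𝓝 (0 : ℂ) := by
      refine ((isOpen_Tube hW).preimage hLc).mem_nhds ?_
      have : L 0 = w := by simp [hL]
      rw [Set.mem_preimage, this]
      exact hwW
    filter_upwards [h3] with t ht using h12 _ ht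
  have h5 := (hdiff G1 h1).eqOn_of_preconnected_of_eventuallyEq (hdiff G2 h2) hSc h0 hev h1S
  have : L 1 = z := by simp [hL]
  simpa only [this] using h5

/-- The Fourier integrand. -/
noncomputable def slice (F : (ι → ℂ) → ℂ) (h : EuclideanSpace ℝ ι) (x : ι → ℝ)
    (y : EuclideanSpace ℝ ι) : ℂ := F (R x + J y) * cexp (q h (R x + J y))

theorem dotc_eq (x : ι → ℝ) (y ξ : EuclideanSpace ℝ ι) :
    dotc (R x + J y) ξ = (dotr x ξ : ℂ) + ((⟪y, ξ⟫ : ℝ) : ℂ) * I := by
  have h1 : (⟪y, ξ⟫ : ℝ) = ∑ j, y j * ξ j := by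
    rw [PiLp.inner_apply]
    refine Finset.sum_congr rfl fun j _ => ?_
    simp [mul_comm]
  rw [h1]
  simp only [dotc, R, J, dotr, Pi.add_apply]
  push_cast
  rw [Finset.sum_mul, ← Finset.sum_add_distrib]
  refine Finset.sum_congr rfl fun j _ => ?_
  ring

theorem Phi_eq (F : (ι → ℂ) → ℂ) (h ξ y : EuclideanSpace ℝ ι) (x : ι → ℝ) :
    Phi F h ξ (R x + J y) = cexp (-(2 * Real.pi * (dotr x ξ : ℝ) : ℂ)) *
      (cexp (((-2 * Real.pi * ⟪y, ξ⟫ : ℝ) : ℂ) * I) • slice F h x y) := by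
  unfold Phi slice
  rw [dotc_eq, smul_eq_mul, Complex.exp_sub]
  have e1 : cexp (2 * (Real.pi : ℂ) * ((dotr x ξ : ℂ) + ((⟪y, ξ⟫ : ℝ) : ℂ) * I)) =
      cexp (2 * Real.pi * (dotr x ξ : ℝ)) * cexp (2 * Real.pi * ((⟪y, ξ⟫ : ℝ) : ℂ) * I) := by
    rw [← Complex.exp_add]
    ring_nf
  have e2 : (((-2 * Real.pi * ⟪y, ξ⟫ : ℝ) : ℂ) * I) = -(2 * Real.pi * ((⟪y, ξ⟫ : ℝ) : ℂ) * I) := by
    push_cast
    ring
  rw [e1, e2, Complex.exp_neg, Complex.exp_neg]
  have n1 := Complex.exp_ne_zero (2 * Real.pi * (dotr x ξ : ℝ))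
  have n2 := Complex.exp_ne_zero (2 * Real.pi * ((⟪y, ξ⟫ : ℝ) : ℂ) * I)
  field_simp

theorem Lap_eq (F : (ι → ℂ) → ℂ) (h ξ : EuclideanSpace ℝ ι) (x : ι → ℝ) :
    Lap F h ξ (R x) = cexp (-(2 * Real.pi * (dotr x ξ : ℝ) : ℂ)) * 𝓕 (slice F h x) ξ := by
  rw [Real.fourier_eq', ← integral_const_mul]
  unfold Lap
  refine integral_congr_ae (Eventually.of_forall fun y => ?_)
  exact Phi_eq F h ξ y x

theorem continuous_slice {W : Set (ι → ℝ)} {F : (ι → ℂ) → ℂ}
    (hF : DifferentiableOn ℂ F (Tube W)) (h : EuclideanSpace ℝ ι) {x : ι → ℝ} (hx : x ∈ W) :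
    Continuous (slice F h x) := by
  have h1 : R x ∈ Tube W := by rwa [mem_Tube, re'_R]
  have h2 := continuous_Phi hF h 0 h1
  refine h2.congr fun y => ?_
  simp [Phi, slice, dotc]

theorem integrable_slice {W : Set (ι → ℝ)} (hW : IsOpen W) {F : (ι → ℂ) → ℂ}
    (hF : DifferentiableOn ℂ F (Tube W)) (hb : PolyBd W F) (h : EuclideanSpace ℝ ι) {x : ι → ℝ}
    (hx : x ∈ W) : Integrable (slice F h x) := by
  have h1 : R x ∈ Tube W := by rwa [mem_Tube, re'_R]
  obtain ⟨r, hr, -, B, hB, hle⟩ := exists_bound hW hb h 0 h1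
  refine Integrable.mono' hB (continuous_slice hF h hx).aestronglyMeasurable
    (Eventually.of_forall fun y => ?_)
  have h2 := hle y (R x) (mem_ball_self (by positivity))
  refine le_trans (le_of_eq ?_) h2
  simp [Phi, slice, dotc]

theorem continuous_Lap {W : Set (ι → ℝ)} (hW : IsOpen W) {F : (ι → ℂ) → ℂ}
    (hF : DifferentiableOn ℂ F (Tube W)) (hb : PolyBd W F) (h : EuclideanSpace ℝ ι) {x : ι → ℝ}
    (hx : x ∈ W) : Continuous fun ξ => Lap F h ξ (R x) := by
  have h1 : Continuous (𝓕 (slice F h x)) :=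
    VectorFourier.fourierIntegral_continuous Real.continuous_fourierChar continuous_inner
      (integrable_slice hW hF hb h hx)
  have h2 : (fun ξ => Lap F h ξ (R x)) = fun ξ =>
      cexp (-(2 * Real.pi * (dotr x ξ : ℝ) : ℂ)) * 𝓕 (slice F h x) ξ :=
    funext fun ξ => Lap_eq F h ξ x
  rw [h2]
  refine Continuous.mul ?_ h1
  refine Complex.continuous_exp.comp (Continuous.neg (continuous_const.mul ?_))
  refine Complex.continuous_ofReal.comp ?_
  unfold dotr
  fun_prop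

/-- **Bochner's tube theorem for functions of polynomial growth.** -/
theorem bochner (W : Set (ι → ℝ)) (hW : IsOpen W) (hc : IsPreconnected W) (F : (ι → ℂ) → ℂ)
    (hF : DifferentiableOn ℂ F {z | (fun j => (z j).re) ∈ W})
    (hb : ∀ K : Set (ι → ℝ), IsCompact K → K ⊆ W → ∃ (c : ℝ) (N : ℕ), ∀ z : ι → ℂ,
      (fun j => (z j).re) ∈ K → ‖F z‖ ≤ c * (1 + ‖fun j => (z j).im‖) ^ N) :
    ∃ G : (ι → ℂ) → ℂ, DifferentiableOn ℂ G {z | (fun j => (z j).re) ∈ convexHull ℝ W} ∧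
      (∀ K : Set (ι → ℝ), IsCompact K → K ⊆ convexHull ℝ W → ∃ (c : ℝ) (N : ℕ), ∀ z : ι → ℂ,
        (fun j => (z j).re) ∈ K → ‖G z‖ ≤ c * (1 + ‖fun j => (z j).im‖) ^ N) ∧
      Set.EqOn F G {z | (fun j => (z j).re) ∈ W} := by
  classical
  rcases W.eq_empty_or_nonempty with rfl | ⟨w0, hw0⟩
  · refine ⟨F, ?_, ?_, fun z hz => rfl⟩
    · rwa [convexHull_empty]
    · rwa [convexHull_empty]
  change DifferentiableOn ℂ F (Tube W) at hF
  change PolyBd W F at hb
  set H : Set (ι → ℝ) := convexHull ℝ W with hH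
  have hHo : IsOpen H := hW.convexHull
  have hHc : Convex ℝ H := convex_convexHull ℝ W
  have hWH : W ⊆ H := subset_convexHull ℝ W
  have hR0 : R w0 ∈ Tube W := by rwa [mem_Tube, re'_R]
  set g : EuclideanSpace ℝ ι → EuclideanSpace ℝ ι → ℂ := fun h ξ => Lap F h ξ (R w0) with hgdef
  have hgx : ∀ h ξ, ∀ x ∈ W, g h ξ = Lap F h ξ (R x) := fun h ξ x hx =>
    Lap_const hW hc hF hb h ξ hR0 (by rwa [mem_Tube, re'_R])
  have hWg : W ⊆ Good g := by
    intro x hx
    obtain ⟨C, N, hC, hCN⟩ := norm_Lap_le hb hx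
    refine ⟨C, N, hC, fun h ξ => ?_⟩
    rw [hgx h ξ x hx]
    calc ‖Lap F h ξ (R x)‖ * Real.exp (2 * Real.pi * dotr x ξ)
        ≤ (C * (1 + ‖h‖) ^ N * Real.exp (-(2 * Real.pi * dotr x ξ))) *
            Real.exp (2 * Real.pi * dotr x ξ) := by
          gcongr
          exact hCN h ξ
      _ = C * (1 + ‖h‖) ^ N := by
          rw [mul_assoc, ← Real.exp_add]
          simp
  have hHg : H ⊆ Good g := convexHull_min hWg (convex_Good g)
  have hgc : ∀ h, Continuous (g h) := fun h => continuous_Lap hW hF hb h hw0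
  have hdiff : ∀ h, ∀ z ∈ Tube H, DifferentiableAt ℂ (Ext g h) z := fun h z hz =>
    differentiableAt_Ext hHo hHg hgc h hz
  -- the extension agrees with `F`
  have hagree : ∀ h, ∀ z ∈ Tube W, F z = Ext g h z := by
    intro h z hz
    set x : ι → ℝ := re' z with hx
    set y : EuclideanSpace ℝ ι := WithLp.toLp 2 (im' z) with hy
    have hxW : x ∈ W := hz
    have hzxy : z = R x + J y := eq_R_add_J z
    obtain ⟨δ, C, N, hδ, hC, hsub, hle⟩ := exists_decay hHo hHg (hWH hxW)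
    have hFg : ∀ ξ, 𝓕 (slice F h x) ξ = cexp (2 * Real.pi * (dotr x ξ : ℝ)) * g h ξ := by
      intro ξ
      rw [hgx h ξ x hxW, Lap_eq, ← mul_assoc, ← Complex.exp_add]
      simp
    have hint : Integrable (𝓕 (slice F h x)) := by
      refine Integrable.mono' (((integrable_expL1 (show 0 < 2 * Real.pi * δ by positivity)).const_mul
        (C * (1 + ‖h‖) ^ N))) ?_ (Eventually.of_forall fun ξ => ?_)
      · exact (VectorFourier.fourierIntegral_continuous Real.continuous_fourierChar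
          continuous_inner (integrable_slice hW hF hb h hxW)).aestronglyMeasurable
      · rw [hFg, norm_mul, Complex.norm_exp, mul_comm]
        have e1 : (2 * (Real.pi : ℂ) * (dotr x ξ : ℝ)).re = 2 * Real.pi * dotr x ξ := by
          have : (2 * (Real.pi : ℂ) * (dotr x ξ : ℝ)) = ((2 * Real.pi * dotr x ξ : ℝ) : ℂ) := by
            push_cast
            ring
          rw [this, Complex.ofReal_re]
        rw [e1]
        exact hle h ξ x (mem_closedBall_self hδ.le)
    have hinv := (integrable_slice hW hF hb h hxW).fourierInv_fourier_eq hint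
      ((continuous_slice hF h hxW).continuousAt (x := y))
    rw [Real.fourierInv_eq'] at hinv
    have e2 : (∫ ξ : EuclideanSpace ℝ ι, cexp (((2 * Real.pi * ⟪ξ, y⟫ : ℝ) : ℂ) * I) •
        𝓕 (slice F h x) ξ) = ∫ ξ, g h ξ * cexp (2 * Real.pi * dotc z ξ) := by
      refine integral_congr_ae (Eventually.of_forall fun ξ => ?_)
      simp only
      rw [hFg, smul_eq_mul, hzxy, dotc_eq, real_inner_comm]
      have e3 : cexp (2 * (Real.pi : ℂ) * ((dotr x ξ : ℂ) + ((⟪y, ξ⟫ : ℝ) : ℂ) * I)) =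
          cexp (2 * Real.pi * (dotr x ξ : ℝ)) * cexp (((2 * Real.pi * ⟪y, ξ⟫ : ℝ) : ℂ) * I) := by
        rw [← Complex.exp_add]
        push_cast
        ring_nf
      rw [e3]
      ring
    rw [e2] at hinv
    unfold Ext
    rw [hinv, hzxy]
    unfold slice
    rw [Complex.exp_neg]
    have n1 := Complex.exp_ne_zero (q h (R x + J y))
    field_simp
  have hall : ∀ h, ∀ z ∈ Tube H, Ext g 0 z = Ext g h z := fun h =>
    eqOn_of_eqOn hHo hHc hW hWH hw0 (hdiff 0) (hdiff h)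
      fun z hz => (hagree 0 z hz).symm.trans (hagree h z hz)
  refine ⟨Ext g 0, fun z hz => (hdiff 0 z hz).differentiableWithinAt, ?_, fun z hz => hagree 0 z hz⟩
  -- polynomial growth
  intro K hK hKH
  refine hK.induction_on (p := fun K => ∃ (c : ℝ) (N : ℕ), ∀ z : ι → ℂ,
    (fun j => (z j).re) ∈ K → ‖Ext g 0 z‖ ≤ c * (1 + ‖fun j => (z j).im‖) ^ N) ?_ ?_ ?_ ?_
  · exact ⟨0, 0, fun z hz => absurd hz (Set.notMem_empty _)⟩
  · rintro s t hst ⟨c, N, h⟩
    exact ⟨c, N, fun z hz => h z (hst hz)⟩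
  · rintro s t ⟨c1, N1, h1⟩ ⟨c2, N2, h2⟩
    refine ⟨|c1| + |c2|, max N1 N2, fun z hz => ?_⟩
    have h0 : 1 ≤ 1 + ‖fun j => (z j).im‖ := by
      have := norm_nonneg fun j => (z j).im
      linarith
    rcases hz with hz | hz
    · calc ‖Ext g 0 z‖ ≤ c1 * (1 + ‖fun j => (z j).im‖) ^ N1 := h1 z hz
        _ ≤ (|c1| + |c2|) * (1 + ‖fun j => (z j).im‖) ^ N1 := by
            gcongr
            exact (le_abs_self c1).trans (le_add_of_nonneg_right (abs_nonneg _))
        _ ≤ (|c1| + |c2|) * (1 + ‖fun j => (z j).im‖) ^ max N1 N2 := by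
            gcongr
            exact le_max_left _ _
    · calc ‖Ext g 0 z‖ ≤ c2 * (1 + ‖fun j => (z j).im‖) ^ N2 := h2 z hz
        _ ≤ (|c1| + |c2|) * (1 + ‖fun j => (z j).im‖) ^ N2 := by
            gcongr
            exact (le_abs_self c2).trans (le_add_of_nonneg_left (abs_nonneg _))
        _ ≤ (|c1| + |c2|) * (1 + ‖fun j => (z j).im‖) ^ max N1 N2 := by
            gcongr
            exact le_max_right _ _
  · intro x0 hx0
    obtain ⟨δ, C, N, hδ, hC, hsub, hle⟩ := exists_decay hHo hHg (hKH hx0)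
    refine ⟨closedBall x0 δ, mem_nhdsWithin_of_mem_nhds (closedBall_mem_nhds x0 hδ), ?_⟩
    set T : ℝ := ∫ ξ : EuclideanSpace ℝ ι, Real.exp (-(2 * Real.pi * δ * ∑ j, |ξ j|)) with hT
    have hT0 : 0 ≤ T := integral_nonneg fun y => (Real.exp_pos _).le
    -- compare the Euclidean norm and the sup norm
    set n : ℝ := (Fintype.card ι : ℝ) + 1 with hn
    refine ⟨C * T * n ^ N, N, fun z hz => ?_⟩
    have hzH : z ∈ Tube H := hsub hz
    set h : EuclideanSpace ℝ ι := WithLp.toLp 2 (im' z) with hh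
    have hhn : 1 + ‖h‖ ≤ n * (1 + ‖fun j => (z j).im‖) := by
      have h1 : ‖h‖ ≤ ∑ j, |h j| := norm_le_L1 h
      have h2 : ∑ j, |h j| ≤ ∑ _j : ι, ‖fun j => (z j).im‖ := by
        refine Finset.sum_le_sum fun j _ => ?_
        have := norm_le_pi_norm (fun j => (z j).im) j
        rwa [Real.norm_eq_abs] at this
      rw [Finset.sum_const, Finset.card_univ, nsmul_eq_mul] at h2
      have h3 : 0 ≤ ‖fun j => (z j).im‖ := norm_nonneg _
      have h4 : (0 : ℝ) ≤ Fintype.card ι := Nat.cast_nonneg _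
      rw [hn]
      nlinarith
    rw [hall h z hzH]
    unfold Ext
    rw [norm_mul, Complex.norm_exp]
    have hre : (-(q h z)).re ≤ 0 := by
      rw [Complex.neg_re, re_q]
      have e1 : ∀ j, ((z j).re ^ 2 - ((z j).im - h j) ^ 2) = (z j).re ^ 2 := by
        intro j
        simp [hh, im']
      simp only [e1]
      have := Finset.sum_nonneg (fun j (_ : j ∈ Finset.univ) => sq_nonneg (z j).re)
      linarith
    have h1 : ‖∫ ξ : EuclideanSpace ℝ ι, g h ξ * cexp (2 * Real.pi * dotc z ξ)‖ ≤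
        C * (1 + ‖h‖) ^ N * T := by
      refine (norm_integral_le_integral_norm _).trans ?_
      rw [hT, ← integral_const_mul]
      refine integral_mono_of_nonneg (Eventually.of_forall fun y => norm_nonneg _)
        ((integrable_expL1 (show 0 < 2 * Real.pi * δ by positivity)).const_mul _)
        (Eventually.of_forall fun ξ => ?_)
      simp only
      rw [norm_kernel]
      exact hle h ξ (re' z) hz
    calc Real.exp (-(q h z)).re * ‖∫ ξ : EuclideanSpace ℝ ι, g h ξ * cexp (2 * Real.pi * dotc z ξ)‖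
        ≤ 1 * (C * (1 + ‖h‖) ^ N * T) := by
          gcongr
          exact Real.exp_le_one_iff.2 hre
      _ ≤ 1 * (C * (n * (1 + ‖fun j => (z j).im‖)) ^ N * T) := by gcongr
      _ = C * T * n ^ N * (1 + ‖fun j => (z j).im‖) ^ N := by
          rw [mul_pow]
          ring

end Pool.Agent.W5h55.BT
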