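import Pool.Agent.W5h55.BT.Param

set_option autoImplicit false
set_option linter.unusedSectionVars false

/-!
# The Laplace transform of a function of polynomial growth on a tube
-/

namespace Pool.Agent.W5h55.BT

open MeasureTheory Filter Topology Metric Complex

variable {ι : Type*} [Fintype ι]

/-- The tube over a set `W` of real vectors. -/
def Tube (W : Set (ι → ℝ)) : Set (ι → ℂ) := {z | (fun j => (z j).re) ∈ W}

/-- Real parts. -/
def re' (z : ι → ℂ) : ι → ℝ := fun j => (z j).re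

/-- Imaginary parts. -/
def im' (z : ι → ℂ) : ι → ℝ := fun j => (z j).im

/-- The purely imaginary vector `i y`. -/
def J (y : EuclideanSpace ℝ ι) : ι → ℂ := fun j => (y j : ℂ) * I

/-- The real vector `x` as a complex one. -/
def R (x : ι → ℝ) : ι → ℂ := fun j => (x j : ℂ)

/-- The pairing with a real vector. -/
def dotc (z : ι → ℂ) (ξ : EuclideanSpace ℝ ι) : ℂ := ∑ j, z j * (ξ j : ℂ)

/-- The real pairing. -/
def dotr (x : ι → ℝ) (ξ : EuclideanSpace ℝ ι) : ℝ := ∑ j, x j * ξ j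

/-- The quadratic form with centre `i h`. -/
def q (h : EuclideanSpace ℝ ι) (z : ι → ℂ) : ℂ := ∑ j, (z j - (h j : ℂ) * I) ^ 2

theorem J_add (y v : EuclideanSpace ℝ ι) : J (y + v) = J y + J v := by
  funext j
  simp [J, add_mul]

theorem continuous_J : Continuous (J : EuclideanSpace ℝ ι → ι → ℂ) := by
  unfold J
  fun_prop

theorem continuous_re' : Continuous (re' : (ι → ℂ) → ι → ℝ) := by
  unfold re'
  fun_prop

theorem re'_add_J (z : ι → ℂ) (y : EuclideanSpace ℝ ι) : re' (z + J y) = re' z := by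
  funext j
  simp [re', J]

theorem im'_add_J (z : ι → ℂ) (y : EuclideanSpace ℝ ι) :
    im' (z + J y) = fun j => (z j).im + y j := by
  funext j
  simp [im', J]

theorem mem_Tube {W : Set (ι → ℝ)} {z : ι → ℂ} : z ∈ Tube W ↔ re' z ∈ W := Iff.rfl

theorem add_J_mem {W : Set (ι → ℝ)} {z : ι → ℂ} (hz : z ∈ Tube W) (y : EuclideanSpace ℝ ι) :
    z + J y ∈ Tube W := by
  rw [mem_Tube, re'_add_J]
  exact hz

theorem isOpen_Tube {W : Set (ι → ℝ)} (hW : IsOpen W) : IsOpen (Tube W) :=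
  hW.preimage continuous_re'

theorem re_J (y : EuclideanSpace ℝ ι) (j : ι) : (J y j).re = 0 := by simp [J]

theorem eq_R_add_J (z : ι → ℂ) : z = R (re' z) + J (WithLp.toLp 2 (im' z)) := by
  funext j
  simp [R, J, re', im']

theorem isPreconnected_Tube {W : Set (ι → ℝ)} (hW : IsPreconnected W) :
    IsPreconnected (Tube W) := by
  have h1 : Tube W = (fun p : (ι → ℝ) × EuclideanSpace ℝ ι => R p.1 + J p.2) ''
      (W ×ˢ Set.univ) := by
    ext z
    constructor
    · intro hz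
      exact ⟨(re' z, WithLp.toLp 2 (im' z)), ⟨hz, trivial⟩, (eq_R_add_J z).symm⟩
    · rintro ⟨p, ⟨hp, -⟩, rfl⟩
      refine add_J_mem ?_ _
      have h2 : re' (R p.1) = p.1 := by
        funext j
        simp [re', R]
      rw [mem_Tube, h2]
      exact hp
  rw [h1]
  refine (hW.prod isPreconnected_univ).image _ (Continuous.continuousOn ?_)
  refine Continuous.add ?_ (continuous_J.comp continuous_snd)
  unfold R
  fun_prop

theorem re_dotc (z : ι → ℂ) (ξ : EuclideanSpace ℝ ι) : (dotc z ξ).re = dotr (re' z) ξ := by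
  simp [dotc, dotr, re']

theorem re_q (h : EuclideanSpace ℝ ι) (z : ι → ℂ) :
    (q h z).re = ∑ j, ((z j).re ^ 2 - ((z j).im - h j) ^ 2) := by
  unfold q
  rw [Complex.re_sum]
  refine Finset.sum_congr rfl fun j _ => ?_
  simp [sq]

theorem differentiable_q (h : EuclideanSpace ℝ ι) : Differentiable ℂ (q h) := by
  unfold q
  fun_prop

theorem differentiable_dotc (ξ : EuclideanSpace ℝ ι) : Differentiable ℂ (fun z => dotc z ξ) := by
  unfold dotc
  fun_prop

theorem continuous_dotc : Continuous fun p : (ι → ℂ) × EuclideanSpace ℝ ι => dotc p.1 p.2 := by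
  unfold dotc
  fun_prop

theorem dotr_le (x : ι → ℝ) (ξ : EuclideanSpace ℝ ι) : |dotr x ξ| ≤ ‖x‖ * ∑ j, |ξ j| := by
  unfold dotr
  refine (Finset.abs_sum_le_sum_abs _ _).trans ?_
  rw [Finset.mul_sum]
  refine Finset.sum_le_sum fun j _ => ?_
  rw [abs_mul]
  have := norm_le_pi_norm x j
  rw [Real.norm_eq_abs] at this
  gcongr

/-- The sup norm is at most the Euclidean norm. -/
theorem norm_coe_le (y : EuclideanSpace ℝ ι) : ‖fun j => y j‖ ≤ ‖y‖ := by
  refine (pi_norm_le_iff_of_nonneg (norm_nonneg _)).2 fun j => ?_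
  exact PiLp.norm_apply_le y j

/-- Polynomials times Gaussians are integrable. -/
theorem integrable_gauss (N : ℕ) :
    Integrable (fun y : EuclideanSpace ℝ ι => (1 + ‖y‖) ^ N * Real.exp (-(‖y‖ ^ 2) / 2)) := by
  have h1 := GaussianFourier.integrable_cexp_neg_mul_sq_norm_add (V := EuclideanSpace ℝ ι)
    (b := (1 / 4 : ℂ)) (by norm_num) 0 0
  have h2 : Integrable fun y : EuclideanSpace ℝ ι => Real.exp (-(‖y‖ ^ 2) / 4) := by
    refine h1.norm.congr (Eventually.of_forall fun y => ?_)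
    simp only [Complex.norm_exp]
    congr 1
    simp only [zero_mul, add_zero]
    have : (-(1 / 4 : ℂ) * (‖y‖ : ℂ) ^ 2) = ((-(‖y‖ ^ 2) / 4 : ℝ) : ℂ) := by
      push_cast
      ring
    rw [this, Complex.ofReal_re]
  refine Integrable.mono' (h2.const_mul ((N.factorial : ℝ) * Real.exp 2)) ?_
    (Eventually.of_forall fun y => ?_)
  · exact Continuous.aestronglyMeasurable (by fun_prop)
  · have h0 : 0 ≤ ‖y‖ := norm_nonneg y
    rw [Real.norm_of_nonneg (by positivity)]
    have h3 : (1 + ‖y‖) ^ N ≤ N.factorial * Real.exp (1 + ‖y‖) := by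
      have := Real.pow_div_factorial_le_exp (1 + ‖y‖) (by positivity) N
      rwa [div_le_iff₀ (by positivity), mul_comm] at this
    have h4 : Real.exp (1 + ‖y‖) * Real.exp (-(‖y‖ ^ 2) / 2) ≤
        Real.exp 2 * Real.exp (-(‖y‖ ^ 2) / 4) := by
      rw [← Real.exp_add, ← Real.exp_add]
      refine Real.exp_le_exp.2 ?_
      nlinarith [sq_nonneg (‖y‖ - 2)]
    calc (1 + ‖y‖) ^ N * Real.exp (-(‖y‖ ^ 2) / 2)
        ≤ (N.factorial * Real.exp (1 + ‖y‖)) * Real.exp (-(‖y‖ ^ 2) / 2) := by gcongr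
      _ = N.factorial * (Real.exp (1 + ‖y‖) * Real.exp (-(‖y‖ ^ 2) / 2)) := by ring
      _ ≤ N.factorial * (Real.exp 2 * Real.exp (-(‖y‖ ^ 2) / 4)) := by gcongr
      _ = (N.factorial * Real.exp 2) * Real.exp (-(‖y‖ ^ 2) / 4) := by ring

/-- The integrand of the Laplace transform. -/
noncomputable def Phi (F : (ι → ℂ) → ℂ) (h ξ : EuclideanSpace ℝ ι) (z : ι → ℂ) : ℂ :=
  F z * cexp (q h z - 2 * Real.pi * dotc z ξ)

/-- The Laplace transform. -/
noncomputable def Lap (F : (ι → ℂ) → ℂ) (h ξ : EuclideanSpace ℝ ι) (z : ι → ℂ) : ℂ :=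
  ∫ y : EuclideanSpace ℝ ι, Phi F h ξ (z + J y)

theorem Lap_add (F : (ι → ℂ) → ℂ) (h ξ : EuclideanSpace ℝ ι) (z : ι → ℂ)
    (v : EuclideanSpace ℝ ι) : Lap F h ξ (z + J v) = Lap F h ξ z := by
  unfold Lap
  have h1 : (fun y : EuclideanSpace ℝ ι => Phi F h ξ (z + J v + J y)) =
      fun y => (fun y => Phi F h ξ (z + J y)) (v + y) := by
    funext y
    simp only [J_add, add_assoc]
  rw [h1]
  exact integral_add_left_eq_self (fun y => Phi F h ξ (z + J y)) v

theorem norm_Phi (F : (ι → ℂ) → ℂ) (h ξ : EuclideanSpace ℝ ι) (z : ι → ℂ) :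
    ‖Phi F h ξ z‖ = ‖F z‖ * Real.exp ((∑ j, ((z j).re ^ 2 - ((z j).im - h j) ^ 2)) -
      2 * Real.pi * dotr (re' z) ξ) := by
  unfold Phi
  rw [norm_mul, Complex.norm_exp]
  congr 2
  rw [Complex.sub_re, re_q]
  congr 1
  have : (2 * (Real.pi : ℂ) * dotc z ξ) = ((2 * Real.pi : ℝ) : ℂ) * dotc z ξ := by push_cast; ring
  rw [this, Complex.re_ofReal_mul, re_dotc]

/-- Polynomial growth over compact sets. -/
def PolyBd (W : Set (ι → ℝ)) (F : (ι → ℂ) → ℂ) : Prop :=
  ∀ K : Set (ι → ℝ), IsCompact K → K ⊆ W → ∃ (c : ℝ) (N : ℕ), ∀ z : ι → ℂ,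
    (fun j => (z j).re) ∈ K → ‖F z‖ ≤ c * (1 + ‖fun j => (z j).im‖) ^ N

theorem re'_R (x : ι → ℝ) : re' (R x) = x := by
  funext j
  simp [re', R]

theorem norm_re'_sub_le (z z0 : ι → ℂ) : ‖re' z - re' z0‖ ≤ ‖z - z0‖ := by
  refine (pi_norm_le_iff_of_nonneg (norm_nonneg _)).2 fun j => ?_
  have h1 : (re' z - re' z0) j = ((z - z0) j).re := by simp [re']
  rw [h1, Real.norm_eq_abs]
  exact (Complex.abs_re_le_norm _).trans (norm_le_pi_norm (z - z0) j)

theorem continuous_Phi {W : Set (ι → ℝ)} {F : (ι → ℂ) → ℂ}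
    (hF : DifferentiableOn ℂ F (Tube W)) (h ξ : EuclideanSpace ℝ ι) {z : ι → ℂ}
    (hz : z ∈ Tube W) : Continuous fun y : EuclideanSpace ℝ ι => Phi F h ξ (z + J y) := by
  unfold Phi
  have h1 : Continuous fun y : EuclideanSpace ℝ ι => z + J y := continuous_const.add continuous_J
  refine Continuous.mul (hF.continuousOn.comp_continuous h1 fun y => add_J_mem hz y) ?_
  refine Complex.continuous_exp.comp (Continuous.sub ?_ (Continuous.mul continuous_const ?_))
  · exact (differentiable_q h).continuous.comp h1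
  · exact (differentiable_dotc ξ).continuous.comp h1

theorem differentiableOn_Phi {W : Set (ι → ℝ)} {F : (ι → ℂ) → ℂ}
    (hF : DifferentiableOn ℂ F (Tube W)) (h ξ : EuclideanSpace ℝ ι) :
    DifferentiableOn ℂ (Phi F h ξ) (Tube W) := by
  unfold Phi
  refine hF.mul (Differentiable.differentiableOn ?_)
  exact ((differentiable_q h).sub ((differentiable_dotc ξ).const_mul _)).cexp

theorem one_add_le {a b : ℝ} (ha : 0 ≤ a) (hb : 0 ≤ b) (N : ℕ) :
    (1 + (a + b)) ^ N ≤ (1 + a) ^ N * (1 + b) ^ N := by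
  rw [← mul_pow]
  gcongr
  nlinarith [mul_nonneg ha hb]

/-- Local domination of the integrand. -/
theorem exists_bound {W : Set (ι → ℝ)} (hW : IsOpen W) {F : (ι → ℂ) → ℂ}
    (hb : PolyBd W F) (h ξ : EuclideanSpace ℝ ι) {z0 : ι → ℂ} (hz0 : z0 ∈ Tube W) :
    ∃ r : ℝ, 0 < r ∧ ball z0 (2 * r) ⊆ Tube W ∧ ∃ B : EuclideanSpace ℝ ι → ℝ, Integrable B ∧
      ∀ y, ∀ z ∈ ball z0 (2 * r), ‖Phi F h ξ (z + J y)‖ ≤ B y := by
  obtain ⟨ε, hε, hεW⟩ := Metric.isOpen_iff.1 hW _ hz0
  obtain ⟨c, N, hcN⟩ := hb (closedBall (re' z0) (ε / 2)) (isCompact_closedBall _ _)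
    ((closedBall_subset_ball (by linarith)).trans hεW)
  refine ⟨min (ε / 4) (1 / 2), by positivity, ?_, ?_⟩
  · intro z hz
    refine hεW ?_
    rw [mem_ball, dist_eq_norm] at hz ⊢
    have h1 := norm_re'_sub_le z z0
    have h2 : min (ε / 4) (1 / 2) ≤ ε / 4 := min_le_left _ _
    calc ‖(fun j => (z j).re) - (fun j => (z0 j).re)‖ ≤ ‖z - z0‖ := h1
      _ < 2 * min (ε / 4) (1 / 2) := hz
      _ ≤ 2 * (ε / 4) := by gcongr
      _ < ε := by linarith
  · set M : ℝ := ‖z0‖ + 1 with hM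
    have hM0 : 0 ≤ M := by positivity
    set n : ℝ := (Fintype.card ι : ℝ) with hn
    set A : ℝ := |c| * (1 + M) ^ N *
      Real.exp (n * M ^ 2 + n * (M + ‖h‖) ^ 2 + 2 * Real.pi * (M * ∑ j, |ξ j|)) with hA
    refine ⟨fun y => A * ((1 + ‖y‖) ^ N * Real.exp (-(‖y‖ ^ 2) / 2)),
      (integrable_gauss N).const_mul A, fun y z hz => ?_⟩
    have hzn : ‖z - z0‖ < 2 * min (ε / 4) (1 / 2) := by rwa [mem_ball, dist_eq_norm] at hz
    have hz1 : ‖z - z0‖ ≤ 1 := by
      have h2 : min (ε / 4) (1 / 2) ≤ (1 / 2 : ℝ) := min_le_right _ _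
      linarith
    have hzM : ‖z‖ ≤ M := by
      calc ‖z‖ = ‖(z - z0) + z0‖ := by simp
        _ ≤ ‖z - z0‖ + ‖z0‖ := norm_add_le _ _
        _ ≤ M := by linarith
    have hre : ∀ j, |(z j).re| ≤ M := fun j =>
      (Complex.abs_re_le_norm _).trans ((norm_le_pi_norm z j).trans hzM)
    have him : ∀ j, |(z j).im| ≤ M := fun j =>
      (Complex.abs_im_le_norm _).trans ((norm_le_pi_norm z j).trans hzM)
    have hyn : ∀ j, |y j| ≤ ‖y‖ := fun j => PiLp.norm_apply_le y j
    have hhn : ∀ j, |h j| ≤ ‖h‖ := fun j => PiLp.norm_apply_le h j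
    -- the bound for `F`
    have hF1 : ‖F (z + J y)‖ ≤ |c| * ((1 + M) ^ N * (1 + ‖y‖) ^ N) := by
      have h1 := hcN (z + J y) (by
        have h3 : re' (z + J y) ∈ closedBall (re' z0) (ε / 2) := by
          rw [re'_add_J, mem_closedBall, dist_eq_norm]
          have h2 : min (ε / 4) (1 / 2) ≤ ε / 4 := min_le_left _ _
          exact (norm_re'_sub_le z z0).trans (by linarith)
        exact h3)
      have h2 : ‖fun j => ((z + J y) j).im‖ ≤ M + ‖y‖ := by
        refine (pi_norm_le_iff_of_nonneg (by positivity)).2 fun j => ?_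
        have h4 : ((z + J y) j).im = (z j).im + y j := congrFun (im'_add_J z y) j
        rw [h4, Real.norm_eq_abs]
        exact (abs_add_le _ _).trans (add_le_add (him j) (hyn j))
      calc ‖F (z + J y)‖ ≤ c * (1 + ‖fun j => ((z + J y) j).im‖) ^ N := h1
        _ ≤ |c| * (1 + ‖fun j => ((z + J y) j).im‖) ^ N := by
            gcongr
            exact le_abs_self c
        _ ≤ |c| * (1 + (M + ‖y‖)) ^ N := by gcongr
        _ ≤ |c| * ((1 + M) ^ N * (1 + ‖y‖) ^ N) := by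
            gcongr
            exact one_add_le hM0 (norm_nonneg _) N
    -- the exponent
    have hexp : (∑ j, (((z + J y) j).re ^ 2 - (((z + J y) j).im - h j) ^ 2)) -
        2 * Real.pi * dotr (re' (z + J y)) ξ ≤
        (n * M ^ 2 + n * (M + ‖h‖) ^ 2 + 2 * Real.pi * (M * ∑ j, |ξ j|)) + -(‖y‖ ^ 2) / 2 := by
      have h1 : ∀ j, (((z + J y) j).re ^ 2 - (((z + J y) j).im - h j) ^ 2) ≤
          (M ^ 2 + (M + ‖h‖) ^ 2) - (y j) ^ 2 / 2 := by
        intro j
        have h4 : ((z + J y) j).im = (z j).im + y j := congrFun (im'_add_J z y) j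
        have h5 : ((z + J y) j).re = (z j).re := congrFun (re'_add_J z y) j
        rw [h4, h5]
        have h6 : (z j).re ^ 2 ≤ M ^ 2 := sq_le_sq' (abs_le.1 (hre j)).1 (abs_le.1 (hre j)).2
        have h7 : |(z j).im - h j| ≤ M + ‖h‖ :=
          (abs_sub _ _).trans (add_le_add (him j) (hhn j))
        have h8 : ((z j).im - h j) ^ 2 ≤ (M + ‖h‖) ^ 2 :=
          sq_le_sq' (abs_le.1 h7).1 (abs_le.1 h7).2
        nlinarith [sq_nonneg (y j + 2 * ((z j).im - h j))]
      have h2 : ∑ j, (((z + J y) j).re ^ 2 - (((z + J y) j).im - h j) ^ 2) ≤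
          n * M ^ 2 + n * (M + ‖h‖) ^ 2 - ‖y‖ ^ 2 / 2 := by
        refine (Finset.sum_le_sum fun j _ => h1 j).trans (le_of_eq ?_)
        rw [Finset.sum_sub_distrib, ← Finset.sum_div, ← EuclideanSpace.real_norm_sq_eq]
        simp only [Finset.sum_const, Finset.card_univ, nsmul_eq_mul]
        rw [hn]
        ring
      have h3 : -(dotr (re' (z + J y)) ξ) ≤ M * ∑ j, |ξ j| := by
        rw [re'_add_J]
        refine (neg_le_abs _).trans ((dotr_le _ _).trans ?_)
        have h9 : ‖re' z‖ ≤ M := by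
          refine (pi_norm_le_iff_of_nonneg hM0).2 fun j => ?_
          exact hre j
        have h10 : 0 ≤ ∑ j, |ξ j| := Finset.sum_nonneg fun j _ => abs_nonneg _
        gcongr
      have h4 := mul_le_mul_of_nonneg_left h3 (show (0 : ℝ) ≤ 2 * Real.pi by positivity)
      linarith
    rw [norm_Phi]
    calc ‖F (z + J y)‖ * Real.exp ((∑ j, (((z + J y) j).re ^ 2 - (((z + J y) j).im - h j) ^ 2)) -
          2 * Real.pi * dotr (re' (z + J y)) ξ)
        ≤ (|c| * ((1 + M) ^ N * (1 + ‖y‖) ^ N)) * Real.exp ((n * M ^ 2 + n * (M + ‖h‖) ^ 2 +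
            2 * Real.pi * (M * ∑ j, |ξ j|)) + -(‖y‖ ^ 2) / 2) := by
          gcongr
      _ = A * ((1 + ‖y‖) ^ N * Real.exp (-(‖y‖ ^ 2) / 2)) := by
          rw [hA, Real.exp_add _ (-(‖y‖ ^ 2) / 2)]
          ring

theorem differentiableAt_Lap {W : Set (ι → ℝ)} (hW : IsOpen W) {F : (ι → ℂ) → ℂ}
    (hF : DifferentiableOn ℂ F (Tube W)) (hb : PolyBd W F) (h ξ : EuclideanSpace ℝ ι)
    {z0 : ι → ℂ} (hz0 : z0 ∈ Tube W) : DifferentiableAt ℂ (Lap F h ξ) z0 := by
  obtain ⟨r, hr, hsub, B, hB, hle⟩ := exists_bound hW hb h ξ hz0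
  refine differentiableAt_integral (φ := fun z y => Phi F h ξ (z + J y)) hr (fun y => ?_)
    (fun z hz => (continuous_Phi hF h ξ (hsub hz)).aestronglyMeasurable) hB hle
  have h1 := differentiableOn_Phi hF h ξ
  refine h1.comp ((differentiable_id.add_const (J y)).differentiableOn) fun z hz => ?_
  exact add_J_mem (hsub hz) y

/-- The Laplace transform does not depend on the real part. -/
theorem Lap_const {W : Set (ι → ℝ)} (hW : IsOpen W) (hc : IsPreconnected W) {F : (ι → ℂ) → ℂ}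
    (hF : DifferentiableOn ℂ F (Tube W)) (hb : PolyBd W F) (h ξ : EuclideanSpace ℝ ι)
    {z z' : ι → ℂ} (hz : z ∈ Tube W) (hz' : z' ∈ Tube W) : Lap F h ξ z = Lap F h ξ z' := by
  refine (isOpen_Tube hW).is_const_of_fderiv_eq_zero (𝕜 := ℂ) (isPreconnected_Tube hc)
    (fun w hw => (differentiableAt_Lap hW hF hb h ξ hw).differentiableWithinAt)
    (fun w hw => ?_) hz hz'
  have h1 := (differentiableAt_Lap hW hF hb h ξ hw).hasFDerivAt
  have h2 : ∀ v : EuclideanSpace ℝ ι, fderiv ℂ (Lap F h ξ) w (J v) = 0 := by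
    intro v
    have h3 : HasDerivAt (fun t : ℝ => w + (t : ℂ) • J v) (J v) 0 := by
      have h4 : HasDerivAt (fun t : ℝ => (t : ℂ)) 1 0 := by
        simpa using (hasDerivAt_id (0 : ℝ)).ofReal_comp
      simpa using (h4.smul_const (J v)).const_add w
    have h5 : HasDerivAt (fun t : ℝ => Lap F h ξ (w + (t : ℂ) • J v))
        (fderiv ℂ (Lap F h ξ) w (J v)) 0 := by
      have h6 : HasFDerivAt (Lap F h ξ) ((fderiv ℂ (Lap F h ξ) w).restrictScalars ℝ)
          (w + ((0 : ℝ) : ℂ) • J v) := by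
        simpa using h1.restrictScalars ℝ
      exact h6.comp_hasDerivAt (0 : ℝ) h3
    have h7 : (fun t : ℝ => Lap F h ξ (w + (t : ℂ) • J v)) = fun _ => Lap F h ξ w := by
      funext t
      have h8 : (t : ℂ) • J v = J (t • v) := by
        funext j
        simp [J]
        ring
      rw [h8, Lap_add]
    rw [h7] at h5
    exact h5.unique (hasDerivAt_const _ _)
  ext v
  have h3 : v = R (re' v) + J (WithLp.toLp 2 (im' v)) := eq_R_add_J v
  have h4 : R (re' v) = (-I : ℂ) • J (WithLp.toLp 2 (re' v)) := by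
    funext j
    simp [R, J]
    ring_nf
    simp
  rw [h3, map_add, h2, h4, map_smul, h2]
  simp

/-- The basic bound. -/
theorem norm_Lap_le {W : Set (ι → ℝ)} {F : (ι → ℂ) → ℂ} (hb : PolyBd W F) {x : ι → ℝ}
    (hx : x ∈ W) : ∃ (C : ℝ) (N : ℕ), 0 ≤ C ∧ ∀ h ξ : EuclideanSpace ℝ ι,
      ‖Lap F h ξ (R x)‖ ≤ C * (1 + ‖h‖) ^ N * Real.exp (-(2 * Real.pi * dotr x ξ)) := by
  obtain ⟨c, N, hcN⟩ := hb {x} isCompact_singleton (by simpa using hx)
  set T : ℝ := ∫ y : EuclideanSpace ℝ ι, (1 + ‖y‖) ^ N * Real.exp (-(‖y‖ ^ 2) / 2) with hT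
  have hT0 : 0 ≤ T := integral_nonneg fun y => by positivity
  refine ⟨|c| * Real.exp (∑ j, x j ^ 2) * T, N, by positivity, fun h ξ => ?_⟩
  rw [← Lap_add F h ξ (R x) h]
  unfold Lap
  have h1 : ∀ y : EuclideanSpace ℝ ι, ‖Phi F h ξ (R x + J h + J y)‖ ≤
      (|c| * Real.exp (∑ j, x j ^ 2) * (1 + ‖h‖) ^ N * Real.exp (-(2 * Real.pi * dotr x ξ))) *
        ((1 + ‖y‖) ^ N * Real.exp (-(‖y‖ ^ 2) / 2)) := by
    intro y
    rw [norm_Phi]
    have hre : re' (R x + J h + J y) = x := by rw [re'_add_J, re'_add_J, re'_R]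
    have him : ∀ j, ((R x + J h + J y) j).im = h j + y j := by
      intro j
      simp [R, J]
    have hre' : ∀ j, ((R x + J h + J y) j).re = x j := fun j => congrFun hre j
    have hF1 : ‖F (R x + J h + J y)‖ ≤ |c| * ((1 + ‖h‖) ^ N * (1 + ‖y‖) ^ N) := by
      have h1 := hcN (R x + J h + J y) (by
        have : re' (R x + J h + J y) ∈ ({x} : Set (ι → ℝ)) := by rw [hre]; rfl
        exact this)
      have h2 : ‖fun j => ((R x + J h + J y) j).im‖ ≤ ‖h‖ + ‖y‖ := by
        refine (pi_norm_le_iff_of_nonneg (by positivity)).2 fun j => ?_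
        rw [him j, Real.norm_eq_abs]
        exact (abs_add_le _ _).trans (add_le_add (PiLp.norm_apply_le h j) (PiLp.norm_apply_le y j))
      calc ‖F (R x + J h + J y)‖ ≤ c * (1 + ‖fun j => ((R x + J h + J y) j).im‖) ^ N := h1
        _ ≤ |c| * (1 + ‖fun j => ((R x + J h + J y) j).im‖) ^ N := by
            gcongr
            exact le_abs_self c
        _ ≤ |c| * (1 + (‖h‖ + ‖y‖)) ^ N := by gcongr
        _ ≤ |c| * ((1 + ‖h‖) ^ N * (1 + ‖y‖) ^ N) := by
            gcongr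
            exact one_add_le (norm_nonneg _) (norm_nonneg _) N
    have hexp : (∑ j, (((R x + J h + J y) j).re ^ 2 - (((R x + J h + J y) j).im - h j) ^ 2)) -
        2 * Real.pi * dotr (re' (R x + J h + J y)) ξ ≤
        (∑ j, x j ^ 2) + (-(2 * Real.pi * dotr x ξ)) + -(‖y‖ ^ 2) / 2 := by
      rw [hre]
      have h3 : (∑ j, (((R x + J h + J y) j).re ^ 2 - (((R x + J h + J y) j).im - h j) ^ 2)) =
          (∑ j, x j ^ 2) - ‖y‖ ^ 2 := by
        rw [EuclideanSpace.real_norm_sq_eq, ← Finset.sum_sub_distrib]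
        refine Finset.sum_congr rfl fun j _ => ?_
        rw [hre' j, him j]
        ring
      rw [h3]
      nlinarith [sq_nonneg ‖y‖]
    calc ‖F (R x + J h + J y)‖ * Real.exp ((∑ j, (((R x + J h + J y) j).re ^ 2 -
          (((R x + J h + J y) j).im - h j) ^ 2)) - 2 * Real.pi * dotr (re' (R x + J h + J y)) ξ)
        ≤ (|c| * ((1 + ‖h‖) ^ N * (1 + ‖y‖) ^ N)) * Real.exp ((∑ j, x j ^ 2) +
            (-(2 * Real.pi * dotr x ξ)) + -(‖y‖ ^ 2) / 2) := by gcongr
      _ = _ := by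
          rw [Real.exp_add, Real.exp_add]
          ring
  refine (norm_integral_le_integral_norm _).trans ?_
  refine (integral_mono_of_nonneg (Eventually.of_forall fun y => norm_nonneg _)
    ((integrable_gauss N).const_mul _) (Eventually.of_forall h1)).trans (le_of_eq ?_)
  rw [integral_const_mul, ← hT]
  ring

end Pool.Agent.W5h55.BT
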