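import Mathlib

set_option autoImplicit false

/-!
# Holomorphic dependence of integrals on several complex parameters
-/

namespace Pool.Agent.W5h55.BT

open MeasureTheory Filter Topology Metric

variable {ι : Type*} [Fintype ι]

/-- Cauchy estimate for the Fréchet derivative on a ball. -/
theorem norm_fderiv_le {φ : (ι → ℂ) → ℂ} {z0 : ι → ℂ} {r B : ℝ} (hr : 0 < r)
    (hφ : DifferentiableOn ℂ φ (ball z0 (2 * r))) (hB : ∀ z ∈ ball z0 (2 * r), ‖φ z‖ ≤ B)
    {z : ι → ℂ} (hz : z ∈ ball z0 r) : ‖fderiv ℂ φ z‖ ≤ 2 * B / r := by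
  have hB0 : 0 ≤ B := (norm_nonneg _).trans (hB z (ball_subset_ball (by linarith) hz))
  refine ContinuousLinearMap.opNorm_le_bound _ (by positivity) fun v => ?_
  rcases eq_or_ne v 0 with rfl | hv
  · simp
  have hv' : 0 < ‖v‖ := norm_pos_iff.2 hv
  -- the line `t ↦ z + t v`, for `|t| ≤ r / (2 ‖v‖)`
  set ρ : ℝ := r / (2 * ‖v‖) with hρ
  have hρ0 : 0 < ρ := by positivity
  have hmem : ∀ t : ℂ, ‖t‖ ≤ ρ → z + t • v ∈ ball z0 (2 * r) := by
    intro t ht
    rw [mem_ball, dist_eq_norm]
    have h1 : ‖z - z0‖ < r := by rwa [mem_ball, dist_eq_norm] at hz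
    calc ‖z + t • v - z0‖ = ‖(z - z0) + t • v‖ := by congr 1; abel
      _ ≤ ‖z - z0‖ + ‖t • v‖ := norm_add_le _ _
      _ = ‖z - z0‖ + ‖t‖ * ‖v‖ := by rw [norm_smul]
      _ ≤ ‖z - z0‖ + ρ * ‖v‖ := by gcongr
      _ = ‖z - z0‖ + r / 2 := by rw [hρ]; field_simp
      _ < 2 * r := by linarith
  have hd : ∀ t : ℂ, ‖t‖ ≤ ρ → HasDerivAt (fun t : ℂ => φ (z + t • v))
      (fderiv ℂ φ (z + t • v) v) t := by
    intro t ht
    have h1 : DifferentiableAt ℂ φ (z + t • v) :=
      (hφ _ (hmem t ht)).differentiableAt (isOpen_ball.mem_nhds (hmem t ht))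
    have h2 : HasDerivAt (fun t : ℂ => z + t • v) v t := by
      simpa using ((hasDerivAt_id t).smul_const v).const_add z
    exact h1.hasFDerivAt.comp_hasDerivAt t h2
  have h0 := hd 0 (by simpa using hρ0.le)
  have h3 : ‖deriv (fun t : ℂ => φ (z + t • v)) 0‖ ≤ B / ρ := by
    refine Complex.norm_deriv_le_of_forall_mem_sphere_norm_le hρ0 ?_ fun t ht => ?_
    · refine DifferentiableOn.diffContOnCl ?_
      rw [closure_ball _ hρ0.ne']
      intro t ht
      rw [mem_closedBall, dist_zero_right] at ht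
      exact (hd t ht).differentiableAt.differentiableWithinAt
    · refine hB _ (hmem t ?_)
      rw [mem_sphere, dist_zero_right] at ht
      exact ht.le
  rw [h0.deriv] at h3
  simp only [zero_smul, add_zero] at h3
  calc ‖fderiv ℂ φ z v‖ ≤ B / ρ := h3
    _ = 2 * B / r * ‖v‖ := by rw [hρ]; field_simp

/-- Integrals of holomorphic functions dominated by an integrable function depend
holomorphically on the parameter. -/
theorem differentiableAt_integral {α : Type*} [MeasurableSpace α] {μ : Measure α}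
    {φ : (ι → ℂ) → α → ℂ} {z0 : ι → ℂ} {r : ℝ} (hr : 0 < r)
    (hφ : ∀ a, DifferentiableOn ℂ (fun z => φ z a) (ball z0 (2 * r)))
    (hm : ∀ z ∈ ball z0 (2 * r), AEStronglyMeasurable (φ z) μ)
    {B : α → ℝ} (hB : Integrable B μ) (hle : ∀ a, ∀ z ∈ ball z0 (2 * r), ‖φ z a‖ ≤ B a) :
    DifferentiableAt ℂ (fun z => ∫ a, φ z a ∂μ) z0 := by
  classical
  have h00 : z0 ∈ ball z0 (2 * r) := mem_ball_self (by positivity)
  have hd : ∀ a, ∀ z ∈ ball z0 r, HasFDerivAt (fun z => φ z a) (fderiv ℂ (fun z => φ z a) z) z := by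
    intro a z hz
    have hz' : z ∈ ball z0 (2 * r) := ball_subset_ball (by linarith) hz
    exact ((hφ a z hz').differentiableAt (isOpen_ball.mem_nhds hz')).hasFDerivAt
  -- measurability of the derivative at `z0`
  have hmeas : AEStronglyMeasurable (fun a => fderiv ℂ (fun z => φ z a) z0) μ := by
    have hcoord : ∀ j : ι, AEStronglyMeasurable
        (fun a => fderiv ℂ (fun z => φ z a) z0 (Pi.single j 1)) μ := by
      intro j
      have hlim : ∀ a, Tendsto (fun n : ℕ => ((n : ℂ) + 1) *
          (φ (z0 + ((n : ℂ) + 1)⁻¹ • Pi.single j 1) a - φ z0 a)) atTop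
          (𝓝 (fderiv ℂ (fun z => φ z a) z0 (Pi.single j 1))) := by
        intro a
        have h1 := (hd a z0 (mem_ball_self hr)).hasLineDerivAt (Pi.single j (1 : ℂ))
        have h2 : HasDerivAt (fun t : ℂ => φ (z0 + t • Pi.single j 1) a)
            (fderiv ℂ (fun z => φ z a) z0 (Pi.single j 1)) 0 := h1
        have h3 := h2.tendsto_slope_zero
        have h4 : Tendsto (fun n : ℕ => ((n : ℂ) + 1)⁻¹) atTop (𝓝[≠] 0) := by
          refine tendsto_nhdsWithin_iff.2 ⟨?_, Filter.Eventually.of_forall fun n => ?_⟩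
          · have := tendsto_one_div_add_atTop_nhds_zero_nat (𝕜 := ℂ)
            simpa using this
          · exact inv_ne_zero (Nat.cast_add_one_ne_zero n)
        have h5 := h3.comp h4
        refine h5.congr fun n => ?_
        simp [Function.comp]
      have hball : ∀ᶠ n : ℕ in atTop, z0 + ((n : ℂ) + 1)⁻¹ • (Pi.single j 1 : ι → ℂ) ∈ ball z0 (2 * r) := by
        have h4 : Tendsto (fun n : ℕ => z0 + ((n : ℂ) + 1)⁻¹ • (Pi.single j 1 : ι → ℂ)) atTop (𝓝 z0) := by
          have h5 : Tendsto (fun n : ℕ => ((n : ℂ) + 1)⁻¹) atTop (𝓝 0) := by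
            have := tendsto_one_div_add_atTop_nhds_zero_nat (𝕜 := ℂ)
            simpa using this
          have h6 := (h5.smul_const (Pi.single j 1 : ι → ℂ)).const_add z0
          simpa using h6
        exact h4.eventually (isOpen_ball.mem_nhds h00)
      obtain ⟨n0, hn0⟩ := eventually_atTop.1 hball
      refine aestronglyMeasurable_of_tendsto_ae (u := atTop)
        (f := fun n a => (((n + n0 : ℕ) : ℂ) + 1) *
          (φ (z0 + (((n + n0 : ℕ) : ℂ) + 1)⁻¹ • Pi.single j 1) a - φ z0 a)) (fun n => ?_)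
        (Filter.Eventually.of_forall fun a => ?_)
      · exact ((hm _ (hn0 _ (by omega))).sub (hm _ h00)).const_mul _
      · exact (hlim a).comp (tendsto_add_atTop_nat n0)
    have heq : (fun a => fderiv ℂ (fun z => φ z a) z0) = fun a => ∑ j,
        (fderiv ℂ (fun z => φ z a) z0 (Pi.single j 1)) •
          (ContinuousLinearMap.proj (R := ℂ) (φ := fun _ : ι => ℂ) j) := by
      funext a
      ext v
      have hv : v = ∑ i, v i • (Pi.single i (1 : ℂ) : ι → ℂ) := by
        ext k
        simp [Finset.sum_apply, Pi.single_apply]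
      conv_lhs => rw [hv]
      simp [map_sum, map_smul, mul_comm]
    rw [heq]
    exact Finset.aestronglyMeasurable_fun_sum _ fun j _ => (hcoord j).smul_const _
  refine (hasFDerivAt_integral_of_dominated_of_fderiv_le (F' := fun z a => fderiv ℂ (fun z => φ z a) z)
    (bound := fun a => 2 * B a / r) (s := ball z0 r)
    (isOpen_ball.mem_nhds (mem_ball_self hr)) ?_ ?_ hmeas ?_ ?_ ?_).differentiableAt
  · filter_upwards [isOpen_ball.mem_nhds h00] with z hz using hm z hz
  · exact Integrable.mono' hB (hm _ h00) (Filter.Eventually.of_forall fun a => hle a _ h00)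
  · exact Filter.Eventually.of_forall fun a z hz => norm_fderiv_le hr (hφ a) (hle a) hz
  · exact (hB.const_mul 2).div_const r
  · exact Filter.Eventually.of_forall fun a z hz => hd a z hz

end Pool.Agent.W5h55.BT
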